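import Pool.Agent.Results.MP_a5fab4_co.SqrtBound
import Pool.Agent.Y511.LR.Small

/-!
# The lower Ramsey numbers: `s(ℓ, m) = ⌈(√ℓ + √m)²⌉ - 1` for all positive `ℓ`, `m`

An order `n` has the property that every graph `G` of order `n` satisfies `i(G) ≤ ℓ` or
`μ(G) ≤ m` if and only if `n < (√ℓ + √m)²`. In particular the conjectured equality
`s(ℓ, m) = 2 (ℓ + m) - 1` holds exactly for the pairs with `|√ℓ - √m| < 1`.

The upper bound is the result of the starting file `SqrtBound`. New is the lower bound.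
Let every maximal clique have at least `m + 1` vertices. Main lemma (`Cover.lean`): there is a set
`D` of vertices and for every vertex `u` outside `D` an `m`-clique `Q u` of `D` in the
neighbourhood of `u` such that the cliques `Q u` cover `D`. (Start with `D = V`; a vertex `w` of
`D` in no `Q u` is moved out of `D` after the vertices of an `m`-clique of its neighbours have been
moved into `D` one by one; when moving `y` into `D` uncovers a vertex `z` of `Q y`, then `z` is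
moved out with the clique `(Q y \ {z}) ∪ {y}`.) If `v` is a vertex of `D` in the largest number
`c` of cliques `Q u` and `p = |D|`, then `m (n - p) ≤ p c`, and a maximal independent set `S`
containing `v` misses the `c` vertices `u` with `v ∈ Q u`, the vertices of `D` outside `S`, and
for each `w ∈ S ∩ D`, `w ≠ v`, one more vertex `u` with `w ∈ Q u`, so that
`|S| ≤ n - p + 1 - c ≤ 1 + (n - p)(1 - m / p) ≤ 1 + (√n - √m)²`.
-/

set_option autoImplicit false

namespace Pool.Agent.Results.MP_a5fab4_co.ExactValues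

open Pool.Agent.Results.MP_a5fab4_co.SqrtBound
open Pool.Agent.Y511.LR

/-- If every maximal clique has more than `m` vertices, every vertex has an `m`-clique among its
neighbours. -/
theorem nbr_clique {n : ℕ} (G : SimpleGraph (Fin n)) (m : ℕ) (h : m < minMaxCliqueNum G)
    (w : Fin n) : ∃ R : Finset (Fin n), R.card = m ∧ (∀ x ∈ R, G.Adj w x) ∧
      ∀ x ∈ R, ∀ y ∈ R, x ≠ y → G.Adj x y := by
  classical
  have hsing : ({w} : Set (Fin n)) ∈ {S : Set (Fin n) | G.IsClique S} := by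
    simp
  obtain ⟨S, hwS, hS⟩ := (Set.toFinite {S : Set (Fin n) | G.IsClique S}).exists_le_maximal hsing
  have hS' : Maximal G.IsClique S := hS
  have hw : w ∈ S := hwS (Set.mem_singleton w)
  have h1 : minMaxCliqueNum G ≤ S.ncard := Nat.sInf_le ⟨S, hS', rfl⟩
  have h2 : m ≤ (S.toFinset.erase w).card := by
    rw [Finset.card_erase_of_mem (by simpa using hw), ← Set.ncard_eq_toFinset_card']
    omega
  obtain ⟨R, hR1, hR2⟩ := Finset.exists_subset_card_eq h2
  refine ⟨R, hR2, ?_, ?_⟩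
  · intro x hx
    obtain ⟨hxw, hxS⟩ := Finset.mem_erase.mp (hR1 hx)
    exact hS'.prop hw (by simpa using hxS) hxw.symm
  · intro x hx y hy hxy
    obtain ⟨_, hxS⟩ := Finset.mem_erase.mp (hR1 hx)
    obtain ⟨_, hyS⟩ := Finset.mem_erase.mp (hR1 hy)
    exact hS'.prop (by simpa using hxS) (by simpa using hyS) hxy

/-- The lower bound: a graph with `i(G) > ℓ` and `μ(G) > m` has at least `(√ℓ + √m)²` vertices. -/
theorem lower {n : ℕ} (G : SimpleGraph (Fin n)) (ℓ m : ℕ) (hℓ : 0 < ℓ) (hm : 0 < m)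
    (h1 : ℓ < indepDomNum G) (h2 : m < minMaxCliqueNum G) :
    (Real.sqrt ℓ + Real.sqrt m) ^ 2 ≤ (n : ℝ) := by
  have hn : 0 < n := by
    rcases Nat.eq_zero_or_pos n with h0 | h0
    · subst h0
      obtain ⟨S, hS⟩ := exists_maximal_isIndepSet G
      have h3 : indepDomNum G ≤ S.ncard := Nat.sInf_le ⟨S, hS, rfl⟩
      have h4 := Set.ncard_le_card S
      simp at h4
      simp [h4] at h3
      omega
    · exact h0
  obtain ⟨a, p, c, S, e1, hp, e2, hS, e3⟩ := small G m hm ⟨⟨0, hn⟩⟩ (nbr_clique G m h2)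
  rw [Fintype.card_fin] at e1
  have h3 : indepDomNum G ≤ S.ncard := Nat.sInf_le ⟨S, hS, rfl⟩
  have h4 : ℓ + c ≤ a := by omega
  obtain ⟨x, hx⟩ : ∃ x, a = ℓ + x := ⟨a - ℓ, by omega⟩
  have hcx : c ≤ x := by omega
  have h5 : m * (ℓ + x) ≤ p * x := by
    rw [hx] at e2
    exact e2.trans (Nat.mul_le_mul_left p hcx)
  have hsl : Real.sqrt ℓ ^ 2 = ℓ := Real.sq_sqrt (Nat.cast_nonneg ℓ)
  have hsm : Real.sqrt m ^ 2 = m := Real.sq_sqrt (Nat.cast_nonneg m)
  have hslnn : 0 ≤ Real.sqrt ℓ := Real.sqrt_nonneg _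
  have hsmnn : 0 ≤ Real.sqrt m := Real.sqrt_nonneg _
  have hnr : (n : ℝ) = ℓ + x + p := by
    have : n = ℓ + x + p := by omega
    rw [this]; push_cast; ring
  have h5r : (m : ℝ) * (ℓ + x) ≤ p * x := by exact_mod_cast h5
  have hx0 : (0 : ℝ) ≤ x := Nat.cast_nonneg x
  have hm0 : (0 : ℝ) < m := by exact_mod_cast hm
  have hp0 : (0 : ℝ) < p := by exact_mod_cast hp
  have hl0 : (0 : ℝ) ≤ ℓ := Nat.cast_nonneg ℓ
  rw [hnr]
  have hl1 : (0 : ℝ) < ℓ := by exact_mod_cast hℓ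
  rcases hx0.eq_or_lt with hxe | hxp
  · rw [← hxe] at h5r
    nlinarith [mul_pos hm0 hl1]
  · have hpm : 0 ≤ (p : ℝ) - m := by
      by_contra hcon
      push Not at hcon
      nlinarith
    have h6 : (m : ℝ) * ℓ ≤ (p - m) * x := by linarith
    have h7 : 2 * (Real.sqrt ℓ * Real.sqrt m) ≤ (p - m) + x := by
      apply abs_le_of_sq_le_sq' _ (by linarith) |>.2
      have h8 : (2 * (Real.sqrt ℓ * Real.sqrt m)) ^ 2 = 4 * ((m : ℝ) * (ℓ : ℝ)) := by
        calc (2 * (Real.sqrt ℓ * Real.sqrt m)) ^ 2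
            = 4 * (Real.sqrt m ^ 2 * Real.sqrt ℓ ^ 2) := by ring
          _ = 4 * ((m : ℝ) * (ℓ : ℝ)) := by rw [hsl, hsm]
      rw [h8]
      nlinarith [sq_nonneg ((p : ℝ) - m - x)]
    nlinarith

theorem mem_good_iff (ℓ m n : ℕ) (hℓ : 0 < ℓ) (hm : 0 < m) :
    n ∈ goodOrders ℓ m ↔ (n : ℝ) < (Real.sqrt ℓ + Real.sqrt m) ^ 2 := by
  constructor
  · intro h
    have h1 := (lowerRamsey_isGreatest ℓ m hℓ hm).2 h
    have h2 : (n : ℝ) ≤ (lowerRamsey ℓ m : ℝ) := by exact_mod_cast h1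
    exact h2.trans_lt (SqrtBound.result ℓ m hℓ hm)
  · intro h G
    by_contra hcon
    push Not at hcon
    exact absurd (lower G ℓ m hℓ hm hcon.1 hcon.2) (not_le.mpr h)

/-- **The lower Ramsey numbers.** For all positive `ℓ` and `m` an order `n` has the property
defining `s(ℓ, m)` if and only if `n < (√ℓ + √m)²`; hence `s(ℓ, m) = ⌈(√ℓ + √m)²⌉ - 1`, and
`s(ℓ, m) = 2 (ℓ + m) - 1` if and only if `|√ℓ - √m| < 1`. -/
theorem result (ℓ m : ℕ) (hℓ : 0 < ℓ) (hm : 0 < m) :
    (∀ n : ℕ, n ∈ goodOrders ℓ m ↔ (n : ℝ) < (Real.sqrt ℓ + Real.sqrt m) ^ 2) ∧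
    (lowerRamsey ℓ m : ℤ) = ⌈(Real.sqrt ℓ + Real.sqrt m) ^ 2⌉ - 1 ∧
    (lowerRamsey ℓ m = 2 * (ℓ + m) - 1 ↔ |Real.sqrt ℓ - Real.sqrt m| < 1) := by
  have hsl : Real.sqrt ℓ ^ 2 = ℓ := Real.sq_sqrt (Nat.cast_nonneg ℓ)
  have hsm : Real.sqrt m ^ 2 = m := Real.sq_sqrt (Nat.cast_nonneg m)
  have hgr := lowerRamsey_isGreatest ℓ m hℓ hm
  have hlt : (lowerRamsey ℓ m : ℝ) < (Real.sqrt ℓ + Real.sqrt m) ^ 2 := SqrtBound.result ℓ m hℓ hm
  have hid : (Real.sqrt ℓ + Real.sqrt m) ^ 2 =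
      2 * ((ℓ : ℝ) + m) - (Real.sqrt ℓ - Real.sqrt m) ^ 2 := by
    rw [← hsl, ← hsm]
    simp only [Real.sqrt_sq (Real.sqrt_nonneg _)]
    ring
  refine ⟨fun n => mem_good_iff ℓ m n hℓ hm, ?_, ?_⟩
  · symm
    rw [sub_eq_iff_eq_add, Int.ceil_eq_iff]
    constructor
    · push_cast
      linarith
    · by_contra hcon
      push Not at hcon
      have h1 : lowerRamsey ℓ m + 1 ∈ goodOrders ℓ m := by
        rw [mem_good_iff ℓ m _ hℓ hm]
        push_cast at hcon ⊢
        exact hcon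
      have h2 := hgr.2 h1
      omega
  · constructor
    · intro h
      rw [← sq_lt_one_iff_abs_lt_one]
      have h1 : ((lowerRamsey ℓ m : ℕ) : ℝ) = 2 * ((ℓ : ℝ) + m) - 1 := by
        rw [h, Nat.cast_sub (by omega)]
        push_cast; ring
      rw [h1, hid] at hlt
      linarith
    · intro h
      rw [← sq_lt_one_iff_abs_lt_one] at h
      have h1 : 2 * (ℓ + m) - 1 ∈ goodOrders ℓ m := by
        rw [mem_good_iff ℓ m _ hℓ hm, hid, Nat.cast_sub (by omega)]
        push_cast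
        linarith
      have h2 := hgr.2 h1
      have h3 : (lowerRamsey ℓ m : ℝ) < ((2 * (ℓ + m) : ℕ) : ℝ) := by
        rw [hid] at hlt
        push_cast
        nlinarith [sq_nonneg (Real.sqrt ℓ - Real.sqrt m)]
      have h4 : lowerRamsey ℓ m < 2 * (ℓ + m) := by exact_mod_cast h3
      omega

end Pool.Agent.Results.MP_a5fab4_co.ExactValues
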